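import Pool.Agent.Helper6K1.BN.T1c
import Pool.Agent.Helper70K1.NB.Defs
import Pool.Agent.Helper70K1.SP.Raw
import Pool.Agent.Helper70K1.SP.Dnf

/-!
# Languages in `BPP` are parity predictable by a randomised algorithm
-/

set_option autoImplicit false

namespace Pool.Agent.Helper48.NB

open Pool.Agent.NPC
open Pool.Agent.Helper6K1.BN (prob prob_mono prob_eq InBPP expect_BL_take poly_pairBits)
open Pool.Agent.Helper70K1.PP (holds par)
open Pool.Agent.Helper70K1.SP (poly_of_polyTime polyTime_of_typed poly_bits)
open Pool.Agent.Helper70K1.NB (RPredictable)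
open Pool.Agent.H579R2.Spt (take_poly')

theorem prob_take {a n : ℕ} (h : a ≤ n) (P : List Bool → Prop) :
    prob n (fun r => P (r.take a)) = prob a P := by
  classical
  obtain ⟨b, rfl⟩ := Nat.exists_eq_add_of_le h
  rw [prob_eq, prob_eq]
  exact expect_BL_take a b fun r => if P r then (1 : ℝ) else 0

theorem length_le_sz_of_mem {x : List Bool} {xs : List (List Bool)} (h : x ∈ xs) :
    x.length ≤ (bits xs).length := by
  have h1 := sz_le_of_mem h
  have h2 := length_lt_sz x
  rw [bits_length]
  omega

/-- the prediction: the first string has the value found by the machine -/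
noncomputable def gB (V : List Bool → List Bool) (ρ : Polynomial ℕ) (y : List Bool) : List Bool × Bool :=
  (((unbits (List (List Bool)) (unpair y).1).getD []).zipIdx.map fun p => decide (p.2 = 0),
    decide (V (pairBits ((((unbits (List (List Bool)) (unpair y).1).getD []).head?).getD [])
      ((unpair y).2.take (ρ.eval ((((unbits (List (List Bool)) (unpair y).1).getD
        []).head?).getD []).length))) = [true]))

theorem gB_poly {V : List Bool → List Bool} (hV : PolyTime V) (ρ : Polynomial ℕ) :
    NPC.Poly (gB V ρ) := by
  unfold gB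
  have h0 : NPC.Poly (fun y : List Bool => (unpair y).1) := NPC.Poly.fst poly_unpair
  have h0' : NPC.Poly (fun y : List Bool => (unpair y).2) := NPC.Poly.snd poly_unpair
  have h1 : NPC.Poly (fun y : List Bool => (unbits (List (List Bool)) (unpair y).1).getD []) :=
    NPC.Poly.optGetD (poly_unbits.comp h0) (NPC.Poly.const _)
  have h2 : NPC.Poly (fun y : List Bool =>
      (((unbits (List (List Bool)) (unpair y).1).getD []).head?).getD []) :=
    NPC.Poly.optGetD (NPC.Poly.head? h1) (NPC.Poly.const _)
  have h3 : UPoly (fun y : List Bool => ρ.eval ((((unbits (List (List Bool)) (unpair y).1).getD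
        []).head?).getD []).length) := (UPoly.length h2).eval ρ
  refine NPC.Poly.pair (NPC.Poly.map (F := fun _ (p : List Bool × ℕ) => decide (p.2 = 0))
    (NPC.Poly.zipIdx h1) ?_) ?_
  · exact NPC.Poly.decide_eq (NPC.Poly.snd (NPC.Poly.snd NPC.Poly.id)) (NPC.Poly.const 0)
  · exact NPC.Poly.decide_eq ((poly_of_polyTime hV).comp (poly_pairBits h2
      (take_poly' h0' h3.toPoly))) (NPC.Poly.const [true])

theorem par_zero : ∀ (l : List (List Bool)) (f : List Bool → Bool) (k : ℕ), 0 < k →
    par (List.zipWith (fun s t => s && t) ((l.zipIdx k).map fun p => decide (p.2 = 0))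
      (l.map f)) = false := by
  intro l f
  induction l with
  | nil => intro k _; simp [par]
  | cons a l ih =>
    intro k hk
    rw [List.zipIdx_cons, List.map_cons, List.map_cons, List.zipWith_cons_cons]
    have h3 := ih (k + 1) (by omega)
    have h4 : decide (k = 0) = false := by simp; omega
    simp only [h4, Bool.false_and]
    change (false ^^ _) = false
    rw [Bool.false_xor]
    exact h3

open Classical in
theorem rpredictable_of_bpp {L : Set (List Bool)} (h : InBPP L) : RPredictable L := by
  obtain ⟨V, ρ, hV, hL⟩ := h
  refine ⟨Polynomial.C 5, ρ, gB V ρ, polyTime_of_typed (poly_bits (gB_poly hV ρ)),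
    fun n xs _ hxs => ?_⟩
  rw [Polynomial.eval_C] at hxs ⊢
  cases xs with
  | nil => simp at hxs
  | cons x xs =>
    have h1 : ρ.eval x.length ≤ ρ.eval (bits (x :: xs)).length :=
      eval_mono ρ (length_le_sz_of_mem (by simp))
    have h2 := hL x
    rw [← prob_take h1] at h2
    have h3 : (1 : ℝ) / 2 + 1 / (((5 : ℕ) : ℝ) + 1) = 2 / 3 := by norm_num
    rw [h3]
    refine h2.trans (prob_mono fun r _ hr => ?_)
    have e : gB V ρ (pairBits (bits (x :: xs)) r) =
        ((x :: xs).zipIdx.map fun p => decide (p.2 = 0), decide (x ∈ L)) := by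
      simp only [gB, unpair_pairBits, unbits_bits, Option.getD_some, List.head?_cons]
      congr 1
      rw [decide_eq_decide]
      exact hr
    rw [e]
    refine ⟨by simp, ?_, ?_⟩
    · simp only [List.zipIdx_cons, List.map_cons, decide_true]
      exact List.mem_cons_self
    · unfold holds
      simp only [List.map_cons, List.zipIdx_cons, List.zipWith_cons_cons, decide_true,
        Bool.true_and, zero_add]
      change ((decide (x ∈ L) ^^ par _) == decide (x ∈ L)) = true
      rw [par_zero xs (fun x => decide (x ∈ L)) 1 one_pos]
      simp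

end Pool.Agent.Helper48.NB
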