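import Pool.Agent.Helper48.NB.Pos

/-!
# The advantage of the parity prediction made from a test
-/

set_option autoImplicit false

namespace Pool.Agent.Helper48.NB

open Finset BigOperators Pool.Agent.NPC
open Pool.Agent.Helper6K1.BN (BLL mem_BLL BLL_nonempty BL_nonempty expect_BLL_succ expect_BLL_zero
  card_BL' expect_char expect_single any_iff expect_BL_one ip_replicate)
open Pool.Agent.Helper70K1.PP (holds par)
open Pool.Agent.H579R2.Spt (BL mem_BL ip ip_cons)

/-- the selection of the first position -/
def firstS (N : ℕ) : List Bool := (List.range N).map fun i => decide (i = 0)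

/-- the prediction -/
def outL (N : ℕ) (V : List Bool → List Bool) (xs : List (List Bool)) (t : List ℕ)
    (b v e coins : List Bool) : List Bool × Bool :=
  bif (selS N v t).any (fun a => a) && decide (V (pairBits (bits (xs, t, b)) coins) = [true])
    then (selS N v t, ip v b) else (firstS N, e.headI)

/-- the probability that the test accepts -/
noncomputable def accL (V : List Bool → List Bool) (xs : List (List Bool)) (R : ℕ) (t : List ℕ)
    (b : List Bool) : ℝ :=
  𝔼 coins ∈ BL R, (if V (pairBits (bits (xs, t, b)) coins) = [true] then (1 : ℝ) else 0)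

theorem accL_nonneg (V : List Bool → List Bool) (xs : List (List Bool)) (R : ℕ) (t : List ℕ)
    (b : List Bool) : 0 ≤ accL V xs R t b :=
  expect_nonneg fun _ _ => by split_ifs <;> norm_num

theorem accL_le_one (V : List Bool → List Bool) (xs : List (List Bool)) (R : ℕ) (t : List ℕ)
    (b : List Bool) : accL V xs R t b ≤ 1 :=
  expect_le (BL_nonempty R) fun _ _ => by split_ifs <;> norm_num

theorem selS_false {N : ℕ} {v : List Bool} (t : List ℕ) (hv : v.any id = false) :
    (selS N v t).any (fun a => a) = false := by
  have h1 : v = List.replicate v.length false := by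
    refine List.eq_replicate_iff.2 ⟨rfl, fun b hb => ?_⟩
    cases b
    · rfl
    · exact absurd (List.any_eq_true.2 ⟨true, hb, rfl⟩) (by rw [hv]; simp)
  rw [List.any_eq_false]
  intro a ha
  unfold selS at ha
  obtain ⟨i, _, rfl⟩ := List.mem_map.1 ha
  rw [h1, ip_replicate]
  simp

/-- the average over the random bit `e` -/
theorem avg_e {N : ℕ} {y : List Bool} (hy : y.length = N) (V : List Bool → List Bool)
    (xs : List (List Bool)) (t : List ℕ) (htN : ∀ j ∈ t, j < N) (b v coins : List Bool) :
    𝔼 e ∈ BL 1, (if holds y (outL N V xs t b v e coins) then (1 : ℝ) else -1) =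
      (if (selS N v t).any (fun a => a) = true then (1 : ℝ) else 0) *
      ((if V (pairBits (bits (xs, t, b)) coins) = [true] then (1 : ℝ) else 0) *
      (Pool.Agent.Helper6K1.BN.sg (ip v b) *
        Pool.Agent.Helper6K1.BN.sg (ip v (t.map fun j => y.getD j false)))) := by
  rw [expect_BL_one]
  have h1 := sg_par_sel hy v t htN
  simp only [Pool.Agent.Helper70K1.PP.sg_holds]
  unfold outL
  by_cases h2 : (selS N v t).any (fun a => a) = true
  · by_cases h3 : V (pairBits (bits (xs, t, b)) coins) = [true]
    · rw [if_pos h2, if_pos h3, h2]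
      simp only [h3, decide_true, Bool.and_self, cond_true]
      rw [h1, sgP_eq]
      ring
    · rw [if_neg h3]
      simp only [h3, decide_false, Bool.and_false, cond_false, List.headI_cons,
        Pool.Agent.Helper70K1.PP.sg_true, Pool.Agent.Helper70K1.PP.sg_false]
      ring
  · rw [if_neg h2]
    have h4 : (selS N v t).any (fun a => a) = false := by simpa using h2
    simp only [h4, Bool.false_and, cond_false, List.headI_cons,
        Pool.Agent.Helper70K1.PP.sg_true, Pool.Agent.Helper70K1.PP.sg_false]
    ring

theorem core {k N : ℕ} {y : List Bool} (hy : y.length = N) (V : List Bool → List Bool)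
    (xs : List (List Bool)) (t : List ℕ) (htk : t.length = k) (htN : ∀ j ∈ t, j < N) (R : ℕ) :
    (accL V xs R t (t.map fun j => y.getD j false) - 𝔼 b ∈ BL k, accL V xs R t b) / 2 ^ k -
      2 * (if t.Nodup then (0 : ℝ) else 1) ≤
    𝔼 b ∈ BL k, 𝔼 v ∈ BL k, 𝔼 e ∈ BL 1, 𝔼 coins ∈ BL R,
      (if holds y (outL N V xs t b v e coins) then (1 : ℝ) else -1) := by
  set a : List Bool := t.map fun j => y.getD j false with ha
  have hak : a.length = k := by rw [ha, List.length_map, htk]
  by_cases hnd : t.Nodup
  · rw [if_pos hnd, mul_zero, sub_zero]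
    apply le_of_eq
    have h1 : ∀ b ∈ BL k, 𝔼 v ∈ BL k, 𝔼 e ∈ BL 1, 𝔼 coins ∈ BL R,
        (if holds y (outL N V xs t b v e coins) then (1 : ℝ) else -1) =
        accL V xs R t b * ((if b = a then (1 : ℝ) else 0) - 1 / 2 ^ k) := by
      intro b hb
      have hb' := mem_BL.1 hb
      have h2 : ∀ v ∈ BL k, 𝔼 e ∈ BL 1, 𝔼 coins ∈ BL R,
          (if holds y (outL N V xs t b v e coins) then (1 : ℝ) else -1) =
          accL V xs R t b * ((Pool.Agent.Helper6K1.BN.sg (ip v b) *
            Pool.Agent.Helper6K1.BN.sg (ip v a)) -
            (Pool.Agent.Helper6K1.BN.sg (ip v b) * Pool.Agent.Helper6K1.BN.sg (ip v a)) *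
            (if v = List.replicate k false then (1 : ℝ) else 0)) := by
        intro v hv
        have hv' := mem_BL.1 hv
        rw [expect_comm]
        have h3 : ∀ coins ∈ BL R, 𝔼 e ∈ BL 1,
            (if holds y (outL N V xs t b v e coins) then (1 : ℝ) else -1) =
            (if V (pairBits (bits (xs, t, b)) coins) = [true] then (1 : ℝ) else 0) *
            ((Pool.Agent.Helper6K1.BN.sg (ip v b) * Pool.Agent.Helper6K1.BN.sg (ip v a)) -
            (Pool.Agent.Helper6K1.BN.sg (ip v b) * Pool.Agent.Helper6K1.BN.sg (ip v a)) *
            (if v = List.replicate k false then (1 : ℝ) else 0)) := by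
          intro coins _
          rw [avg_e hy V xs t htN b v coins]
          by_cases hany : v.any id = true
          · have h4 : (selS N v t).any (fun a => a) = true :=
              List.any_eq_true.2 ⟨true, selS_true (by rw [hv', htk]) hnd htN hany, rfl⟩
            rw [if_pos h4, if_neg ((any_iff hv').1 hany)]
            ring
          · have h4 : (selS N v t).any (fun a => a) = false :=
              selS_false t (by simpa using hany)
            rw [h4, if_pos (show v = List.replicate k false by
              by_contra hne
              exact hany ((any_iff hv').2 hne))]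
            simp
        rw [expect_congr rfl h3, accL, expect_mul]
      rw [expect_congr rfl h2, ← mul_expect, expect_sub_distrib, expect_char hb' hak,
        expect_single (by simp), ip_replicate, ip_replicate]
      simp
    rw [expect_congr rfl h1]
    have h5 : ∀ b ∈ BL k, accL V xs R t b * ((if b = a then (1 : ℝ) else 0) - 1 / 2 ^ k) =
        accL V xs R t b * (if b = a then (1 : ℝ) else 0) - accL V xs R t b / 2 ^ k := by
      intro b _
      ring
    rw [expect_congr rfl h5, expect_sub_distrib, expect_single hak (fun b => accL V xs R t b),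
      ← expect_div, sub_div]
  · rw [if_neg hnd]
    have h1 : (-1 : ℝ) ≤ 𝔼 b ∈ BL k, 𝔼 v ∈ BL k, 𝔼 e ∈ BL 1, 𝔼 coins ∈ BL R,
        (if holds y (outL N V xs t b v e coins) then (1 : ℝ) else -1) :=
      le_expect (BL_nonempty k) fun _ _ => le_expect (BL_nonempty k) fun _ _ =>
        le_expect (BL_nonempty 1) fun _ _ => le_expect (BL_nonempty R) fun _ _ => by
          split_ifs <;> norm_num
    have h2 : (accL V xs R t a - 𝔼 b ∈ BL k, accL V xs R t b) / 2 ^ k ≤ 1 := by
      rw [div_le_one (by positivity)]
      have h3 := accL_le_one V xs R t a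
      have h4 : 0 ≤ 𝔼 b ∈ BL k, accL V xs R t b := expect_nonneg fun b _ => accL_nonneg V xs R t b
      have h5 : (1 : ℝ) ≤ 2 ^ k := one_le_pow₀ (by norm_num)
      linarith
    linarith

end Pool.Agent.Helper48.NB
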