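import Pool.Agent.Helper48.NB.BPP

/-!
# Parity prediction by a randomised algorithm is inherited under reductions
-/

set_option autoImplicit false

namespace Pool.Agent.Helper48.NB

open Pool.Agent.NPC
open Pool.Agent.Helper6K1.BN (prob prob_mono prob_eq InBPP expect_BL_take poly_pairBits)
open Pool.Agent.Helper70K1.PP (holds par)
open Pool.Agent.Helper70K1.SP (poly_of_polyTime polyTime_of_typed poly_bits)
open Pool.Agent.Helper70K1.NB (RPredictable)
open Pool.Agent.H579R2.Spt (take_poly')

/-- a function whose code is computed in polynomial time, after a typed function -/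
theorem poly_gP {g : List Bool → List Bool × Bool} (hg : PolyTime fun y => bits (g y)) {β : Type}
    [TEnc β] {Q : β → List Bool} (hQ : NPC.Poly Q) : NPC.Poly (fun x => g (Q x)) := by
  have h1 : NPC.Poly (fun x => bits (g (Q x))) := (poly_of_polyTime hg).comp hQ
  have h2 : NPC.Poly (fun x => (unbits (List Bool × Bool) (bits (g (Q x)))).getD ([], false)) :=
    NPC.Poly.optGetD (poly_unbits.comp h1) (NPC.Poly.const _)
  refine h2.congr fun x => ?_
  rw [unbits_bits]
  rfl

theorem RPredictable.of_reduces {K L : Set (List Bool)} (hK : RPredictable K)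
    (h : Reduces L K) : RPredictable L := by
  classical
  obtain ⟨P, ρ, g, hg, hP⟩ := hK
  obtain ⟨φ, hφ, hφL⟩ := h
  have hφP := poly_of_polyTime hφ
  obtain ⟨q, hq⟩ := hφP.sz_le
  have hφlen : ∀ x, (φ x).length ≤ q.eval (4 * x.length + 1) := by
    intro x
    have h1 := length_lt_sz (φ x)
    have h2 := hq x
    have h3 := eval_mono q (sz_listBool_le x)
    omega
  have hmap : NPC.Poly (fun l : List (List Bool) => l.map φ) :=
    NPC.Poly.map (F := fun _ y => φ y) NPC.Poly.id (hφP.comp (NPC.Poly.snd NPC.Poly.id))
  obtain ⟨pm, hpm⟩ := hmap.sz_le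
  set g' : List Bool → List Bool × Bool := fun y =>
    g (pairBits (bits ((((unbits (List (List Bool)) (unpair y).1).getD []).map φ)))
      ((unpair y).2.take (ρ.eval (bits (((unbits (List (List Bool)) (unpair y).1).getD
        []).map φ)).length))) with hg'
  have hP' : NPC.Poly g' := by
    have h0 : NPC.Poly (fun y : List Bool => (unpair y).1) := NPC.Poly.fst poly_unpair
    have h0' : NPC.Poly (fun y : List Bool => (unpair y).2) := NPC.Poly.snd poly_unpair
    have h1 : NPC.Poly (fun y : List Bool => (unbits (List (List Bool)) (unpair y).1).getD []) :=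
      NPC.Poly.optGetD (poly_unbits.comp h0) (NPC.Poly.const _)
    have h2 : NPC.Poly (fun y : List Bool =>
        bits (((unbits (List (List Bool)) (unpair y).1).getD []).map φ)) :=
      poly_bits (hmap.comp h1)
    exact poly_gP hg (poly_pairBits h2 (take_poly' h0' ((UPoly.length h2).eval ρ).toPoly))
  refine ⟨P.comp (q.comp (Polynomial.C 4 * Polynomial.X + Polynomial.C 1)), ρ.comp pm, g',
    polyTime_of_typed (poly_bits hP'), fun n xs hxs hlen => ?_⟩
  have h1 : (P.comp (q.comp (Polynomial.C 4 * Polynomial.X + Polynomial.C 1))).eval n =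
      P.eval (q.eval (4 * n + 1)) := by
    simp [Polynomial.eval_comp]
  rw [h1] at hlen ⊢
  have h2 := hP (q.eval (4 * n + 1)) (xs.map φ) (by
    intro y hy
    obtain ⟨x, hx, rfl⟩ := List.mem_map.1 hy
    have h5 := hxs x hx
    exact (hφlen x).trans (eval_mono q (by omega))) (by rw [List.length_map]; exact hlen)
  have h3 : ρ.eval (bits (xs.map φ)).length ≤ (ρ.comp pm).eval (bits xs).length := by
    rw [Polynomial.eval_comp]
    refine eval_mono ρ ?_
    rw [bits_length, bits_length]
    exact hpm xs
  rw [← prob_take h3] at h2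
  have h5 : ((xs.map φ).map fun x => decide (x ∈ K)) = xs.map fun x => decide (x ∈ L) := by
    rw [List.map_map]
    refine List.map_congr_left fun x _ => ?_
    simp only [Function.comp]
    rw [decide_eq_decide]
    exact (hφL x).symm
  rw [h5, List.length_map] at h2
  refine h2.trans (prob_mono fun r _ hr => ?_)
  have e : g' (pairBits (bits xs) r) =
      g (pairBits (bits (xs.map φ)) (r.take (ρ.eval (bits (xs.map φ)).length))) := by
    simp only [hg', unpair_pairBits, unbits_bits, Option.getD_some]
  rw [e]
  exact hr

end Pool.Agent.Helper48.NB
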