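import Pool.Agent.Helper48.NB.Core
import Pool.Agent.Helper48.NB.Red

/-!
# List testable languages are parity predictable
-/

set_option autoImplicit false

namespace Pool.Agent.Helper48.NB

open Finset BigOperators Pool.Agent.NPC
open Pool.Agent.Helper6K1.BN (BLL mem_BLL BLL_nonempty BL_nonempty expect_BLL_succ expect_BLL_zero
  card_BL' expect_char expect_single any_iff expect_BL_one ip_replicate prob prob_eq' prob_congr
  expect_BL_split expect_rows expect_BL_take poly_pairBits size_upoly headI_poly two_pow_size_le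
  answers)
open Pool.Agent.Helper70K1.PP (holds par)
open Pool.Agent.Helper70K1.SP (poly_of_polyTime polyTime_of_typed poly_bits)
open Pool.Agent.Helper70K1.NB (RPredictable)
open Pool.Agent.H579R2.Spt (BL mem_BL ip ip_cons rowsL take_poly' drop_poly' rowsL_poly ip_poly
  two_pow_size_poly)

/-- the maximal length of the strings of a list -/
def mx (xs : List (List Bool)) : ℕ := xs.foldr (fun x m => max x.length m) 0

theorem mx_le {xs : List (List Bool)} {n : ℕ} (h : ∀ x ∈ xs, x.length ≤ n) : mx xs ≤ n := by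
  induction xs with
  | nil => simp [mx]
  | cons x xs ih =>
    have h1 := ih fun y hy => h y (by simp [hy])
    have h2 := h x (by simp)
    change max x.length (mx xs) ≤ n
    exact max_le h2 h1

theorem le_mx {xs : List (List Bool)} : ∀ x ∈ xs, x.length ≤ mx xs := by
  induction xs with
  | nil => simp
  | cons x xs ih =>
    intro y hy
    change y.length ≤ max x.length (mx xs)
    rcases List.mem_cons.1 hy with rfl | hy
    · exact le_max_left _ _
    · exact (ih y hy).trans (le_max_right _ _)

theorem mx_le_flatten (xs : List (List Bool)) : mx xs ≤ xs.flatten.length := by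
  induction xs with
  | nil => simp [mx]
  | cons x xs ih =>
    change max x.length (mx xs) ≤ _
    rw [List.flatten_cons, List.length_append]
    omega

theorem mx_le_sz (xs : List (List Bool)) : mx xs ≤ sz xs := by
  refine mx_le fun x hx => ?_
  have h1 := sz_le_of_mem hx
  have h2 := length_lt_sz x
  omega

theorem mx_poly {α : Type} [TEnc α] {xs : α → List (List Bool)} (h : Poly xs) :
    Poly (fun a => mx (xs a)) := by
  obtain ⟨p, hp⟩ := h.sz_le
  refine NPC.Poly.foldr (l := xs) (s := fun _ => 0) (F := fun _ x m => max x.length m) h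
    (NPC.Poly.const 0) ?_ (4 * p + 1) ?_
  · exact NPC.Poly.max (NPC.Poly.length (NPC.Poly.fst (NPC.Poly.snd NPC.Poly.id)))
      (NPC.Poly.snd (NPC.Poly.snd NPC.Poly.id))
  · intro a k _
    have h1 : ((xs a).drop k).foldr (fun x m => max x.length m) 0 = mx ((xs a).drop k) := rfl
    rw [h1]
    have h2 : mx ((xs a).drop k) ≤ mx (xs a) :=
      mx_le fun x hx => le_mx x (List.mem_of_mem_drop hx)
    have h3 := mx_le_sz (xs a)
    have h4 := hp a
    have h5 := sz_nat_le (mx ((xs a).drop k))
    have h6 := NPC.Poly.size_le_self (mx ((xs a).drop k))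
    simp only [Polynomial.eval_add, Polynomial.eval_mul, Polynomial.eval_ofNat,
      Polynomial.eval_one]
    omega

theorem mx_upoly {α : Type} [TEnc α] {xs : α → List (List Bool)} (h : Poly xs) :
    UPoly (fun a => mx (xs a)) :=
  UPoly.of_le (mx_poly h) (UPoly.length (NPC.Poly.flatten h)) fun a => mx_le_flatten (xs a)

/-- the prediction, from the coins -/
noncomputable def gLs (ρ : Polynomial ℕ) (V : List Bool → List Bool) (N : ℕ)
    (xs' : List (List Bool)) (k s : ℕ) (r : List Bool) : List Bool × Bool :=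
  outL N V xs' ((rowsL s k r).map valB) ((r.drop (k * s)).take k)
    (((r.drop (k * s)).drop k).take k) ((((r.drop (k * s)).drop k).drop k).take 1)
    (((((r.drop (k * s)).drop k).drop k).drop 1).take (ρ.eval (bits xs').length))

/-- the predictor -/
noncomputable def gL (c : ℕ) (ρ : Polynomial ℕ) (V : List Bool → List Bool) (y : List Bool) :
    List Bool × Bool :=
  gLs ρ V ((unbits (List (List Bool)) (unpair y).1).getD []).length
    (((unbits (List (List Bool)) (unpair y).1).getD []).take
      (2 ^ ((unbits (List (List Bool)) (unpair y).1).getD []).length.size / 2))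
    (c * ((mx ((unbits (List (List Bool)) (unpair y).1).getD [])).size + 1))
    (((unbits (List (List Bool)) (unpair y).1).getD []).length.size - 1) (unpair y).2

theorem selS_poly {α : Type} [TEnc α] {N : α → ℕ} {v : α → List Bool} {t : α → List ℕ}
    (hN : UPoly N) (hv : Poly v) (ht : Poly t) : Poly (fun a => selS (N a) (v a) (t a)) := by
  unfold selS
  refine NPC.Poly.map (l := fun a => List.range (N a))
    (F := fun a i => ip (v a) ((t a).map fun j => decide (j = i))) hN.range ?_
  have e1 : Poly (fun q : α × ℕ => q.1) := NPC.Poly.fst NPC.Poly.id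
  refine ip_poly (hv.comp e1) ?_
  refine NPC.Poly.map (l := fun q : α × ℕ => t q.1) (F := fun q (j : ℕ) => decide (j = q.2))
    (ht.comp e1) ?_
  exact NPC.Poly.decide_eq (NPC.Poly.snd NPC.Poly.id)
    (NPC.Poly.snd (NPC.Poly.fst NPC.Poly.id))

theorem firstS_poly {α : Type} [TEnc α] {N : α → ℕ} (hN : UPoly N) :
    Poly (fun a => firstS (N a)) := by
  unfold firstS
  refine NPC.Poly.map (l := fun a => List.range (N a)) (F := fun _ (i : ℕ) => decide (i = 0))
    hN.range ?_
  exact NPC.Poly.decide_eq (NPC.Poly.snd NPC.Poly.id) (NPC.Poly.const 0)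

theorem outL_poly {V : List Bool → List Bool} (hV : PolyTime V) {α : Type} [TEnc α] {N : α → ℕ}
    {xs : α → List (List Bool)} {t : α → List ℕ} {b v e coins : α → List Bool} (hN : UPoly N)
    (hxs : Poly xs) (ht : Poly t) (hb : Poly b) (hv : Poly v) (he : Poly e) (hc : Poly coins) :
    Poly (fun a => outL (N a) V (xs a) (t a) (b a) (v a) (e a) (coins a)) := by
  unfold outL
  refine NPC.Poly.cond (NPC.Poly.and (NPC.Poly.any (p := fun _ (b : Bool) => b)
    (selS_poly hN hv ht) (NPC.Poly.snd NPC.Poly.id)) ?_)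
    (NPC.Poly.pair (selS_poly hN hv ht) (ip_poly hv hb))
    (NPC.Poly.pair (firstS_poly hN) (headI_poly he))
  exact NPC.Poly.decide_eq ((poly_of_polyTime hV).comp (poly_pairBits
    (poly_bits (NPC.Poly.pair hxs (NPC.Poly.pair ht hb))) hc)) (NPC.Poly.const [true])

theorem gL_poly {V : List Bool → List Bool} (hV : PolyTime V) (c : ℕ) (ρ : Polynomial ℕ) :
    Poly (gL c ρ V) := by
  have h0 : Poly (fun y : List Bool => (unpair y).1) := NPC.Poly.fst poly_unpair
  have hr : Poly (fun y : List Bool => (unpair y).2) := NPC.Poly.snd poly_unpair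
  have hx : Poly (fun y : List Bool => (unbits (List (List Bool)) (unpair y).1).getD []) :=
    NPC.Poly.optGetD (poly_unbits.comp h0) (NPC.Poly.const _)
  have uN : UPoly (fun y : List Bool =>
    ((unbits (List (List Bool)) (unpair y).1).getD []).length) := UPoly.length hx
  have hx' : Poly (fun y : List Bool => (((unbits (List (List Bool)) (unpair y).1).getD []).take
      (2 ^ ((unbits (List (List Bool)) (unpair y).1).getD []).length.size / 2))) :=
    take_poly' hx (NPC.Poly.div (two_pow_size_poly uN).toPoly (NPC.Poly.const 2))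
  have uk : UPoly (fun y : List Bool =>
      c * ((mx ((unbits (List (List Bool)) (unpair y).1).getD [])).size + 1)) :=
    (UPoly.const c).mul ((size_upoly (mx_upoly hx)).add (UPoly.const 1))
  have us : UPoly (fun y : List Bool =>
      ((unbits (List (List Bool)) (unpair y).1).getD []).length.size - 1) :=
    UPoly.of_le (NPC.Poly.sub (size_upoly uN).toPoly (NPC.Poly.const 1)) (size_upoly uN)
      fun _ => Nat.sub_le _ _
  unfold gL gLs
  have r1 := drop_poly' hr (uk.mul us).toPoly
  have r2 := drop_poly' r1 uk.toPoly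
  have r3 := drop_poly' r2 uk.toPoly
  have r4 := drop_poly' r3 (UPoly.const 1).toPoly
  refine outL_poly hV uN hx' ?_ (take_poly' r1 uk.toPoly) (take_poly' r2 uk.toPoly)
    (take_poly' r3 (UPoly.const 1).toPoly)
    (take_poly' r4 ((UPoly.length (poly_bits hx')).eval ρ).toPoly)
  exact NPC.Poly.map (F := fun _ (z : List Bool) => valB z) (rowsL_poly us.toPoly uk hr)
    (NPC.Poly.valBits (NPC.Poly.snd NPC.Poly.id))

theorem gL_eq (c : ℕ) (ρ : Polynomial ℕ) (V : List Bool → List Bool) (xs : List (List Bool))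
    (r : List Bool) : gL c ρ V (pairBits (bits xs) r) =
      gLs ρ V xs.length (xs.take (2 ^ xs.length.size / 2)) (c * ((mx xs).size + 1))
        (xs.length.size - 1) r := by
  unfold gL
  simp only [unpair_pairBits, unbits_bits, Option.getD_some]

/-- the number of random bits -/
noncomputable def RL (c : ℕ) (ρ : Polynomial ℕ) : Polynomial ℕ :=
  Polynomial.C c * (Polynomial.X + 1) * Polynomial.X + (Polynomial.C c * (Polynomial.X + 1) +
    (Polynomial.C c * (Polynomial.X + 1) + (1 + ρ)))

/-- the bound -/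
noncomputable def PL (c : ℕ) (P : Polynomial ℕ) : Polynomial ℕ :=
  8 * (Polynomial.C c * (Polynomial.X + 1)) ^ 2 * (4 * Polynomial.X + 2) ^ c * (P + 1) +
    4 * (4 * Polynomial.X + 2) ^ c * (P + 1) + 2 * P + 2

theorem PL_eval (c : ℕ) (P : Polynomial ℕ) (n : ℕ) : (PL c P).eval n =
    8 * (c * (n + 1)) ^ 2 * (4 * n + 2) ^ c * (P.eval n + 1) +
      4 * (4 * n + 2) ^ c * (P.eval n + 1) + 2 * P.eval n + 2 := by
  simp [PL]

theorem outL_adm {N : ℕ} (hN : 0 < N) (V : List Bool → List Bool) (xs : List (List Bool))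
    (t : List ℕ) (b v e coins : List Bool) :
    (outL N V xs t b v e coins).1.length = N ∧ true ∈ (outL N V xs t b v e coins).1 := by
  unfold outL
  by_cases h : ((selS N v t).any (fun a => a) &&
      decide (V (pairBits (bits (xs, t, b)) coins) = [true])) = true
  · rw [h, cond_true]
    refine ⟨by simp, ?_⟩
    rw [Bool.and_eq_true] at h
    obtain ⟨a, ha, ha'⟩ := List.any_eq_true.1 h.1
    rw [ha'] at ha
    exact ha
  · rw [Bool.not_eq_true] at h
    rw [h, cond_false]
    refine ⟨by simp [firstS], ?_⟩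
    unfold firstS
    exact List.mem_map.2 ⟨0, List.mem_range.2 hN, by simp⟩

theorem pow_size_facts {N : ℕ} (hN : 0 < N) : 2 ^ N.size / 2 = 2 ^ (N.size - 1) ∧
    2 ^ (N.size - 1) ≤ N ∧ N < 2 * 2 ^ (N.size - 1) := by
  have h1 : 0 < N.size := Nat.size_pos.2 hN
  obtain ⟨s, hs⟩ : ∃ s, N.size = s + 1 := ⟨N.size - 1, by omega⟩
  have h2 : 2 ^ s ≤ N := Nat.lt_size.1 (by omega)
  have h3 : N < 2 ^ N.size := Nat.lt_size_self N
  rw [hs] at h3 ⊢
  rw [pow_succ] at h3 ⊢
  simp only [Nat.add_sub_cancel]
  omega

open Classical in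
theorem ListTestable.rpredictable {L : Set (List Bool)} (h : ListTestable L) : RPredictable L := by
  obtain ⟨c, P, ρ, V, hV, hT⟩ := h
  refine ⟨PL c P, RL c ρ, gL c ρ V, polyTime_of_typed (poly_bits (gL_poly hV c ρ)),
    fun n xs hn hxs => ?_⟩
  rw [PL_eval] at hxs
  set N := xs.length with hNdef
  have hN : 0 < N := by omega
  obtain ⟨f1, f2, f3⟩ := pow_size_facts hN
  set s := N.size - 1 with hs
  set M := 2 ^ s with hM
  set n1 := mx xs with hn1
  have hn1n : n1 ≤ n := mx_le hn
  set k := c * (n1.size + 1) with hk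
  set xs' := xs.take M with hxs'
  have hxl : xs'.length = M := by rw [hxs', List.length_take]; omega
  set R := ρ.eval (bits xs').length with hR
  set y : List Bool := xs.map fun x => decide (x ∈ L) with hy
  have hyl : y.length = N := by rw [hy, List.length_map]
  -- estimates
  have hk1 : k ≤ c * (n + 1) := by
    refine Nat.mul_le_mul_left c ?_
    have := NPC.Poly.size_le_self n1
    omega
  have h2k : 2 ^ k ≤ (4 * n + 2) ^ c := by
    rw [hk, mul_comm, pow_mul]
    refine Nat.pow_le_pow_left ?_ c
    rw [pow_succ]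
    have := two_pow_size_le n1
    omega
  have hPn : P.eval n1 ≤ P.eval n := eval_mono P hn1n
  have hMP : P.eval n1 ≤ M := by
    have : 0 ≤ 8 * (c * (n + 1)) ^ 2 * (4 * n + 2) ^ c * (P.eval n + 1) := Nat.zero_le _
    omega
  have hMk : 4 * (k * k) * 2 ^ k * (P.eval n1 + 1) ≤ M := by
    have g1 : 4 * (k * k) * 2 ^ k * (P.eval n1 + 1) ≤
        4 * ((c * (n + 1)) ^ 2) * (4 * n + 2) ^ c * (P.eval n + 1) := by
      refine Nat.mul_le_mul (Nat.mul_le_mul (Nat.mul_le_mul_left 4 ?_) h2k) (by omega)
      rw [sq]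
      exact Nat.mul_le_mul hk1 hk1
    have g2 : 8 * (c * (n + 1)) ^ 2 * (4 * n + 2) ^ c * (P.eval n + 1) =
        2 * (4 * ((c * (n + 1)) ^ 2) * (4 * n + 2) ^ c * (P.eval n + 1)) := by ring
    omega
  have hPk : 4 * 2 ^ k * (P.eval n1 + 1) ≤ (PL c P).eval n + 1 := by
    rw [PL_eval]
    have g1 : 4 * 2 ^ k * (P.eval n1 + 1) ≤ 4 * (4 * n + 2) ^ c * (P.eval n + 1) :=
      Nat.mul_le_mul (Nat.mul_le_mul_left 4 h2k) (by omega)
    omega
  -- the number of coins
  obtain ⟨z, hz⟩ : ∃ z, (RL c ρ).eval (bits xs).length = k * s + (k + (k + (1 + (R + z)))) := by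
    have g1 : (RL c ρ).eval (bits xs).length = c * (sz xs + 1) * sz xs + (c * (sz xs + 1) +
        (c * (sz xs + 1) + (1 + ρ.eval (sz xs)))) := by
      simp [RL, bits_length]
    have g2 : R ≤ ρ.eval (sz xs) := by
      rw [hR, bits_length]
      exact eval_mono ρ (NPC.Poly.sz_take_le xs M)
    have g3 : k ≤ c * (sz xs + 1) := by
      refine Nat.mul_le_mul_left c ?_
      have := NPC.Poly.size_le_self n1
      have := mx_le_sz xs
      omega
    have g4 : s ≤ sz xs := by
      have g5 := NPC.Poly.size_le_self N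
      have g6 := length_lt_sz xs
      omega
    have g7 : k * s ≤ c * (sz xs + 1) * sz xs := Nat.mul_le_mul g3 g4
    exact ⟨(RL c ρ).eval (bits xs).length - (k * s + (k + (k + (1 + R)))), by rw [g1]; omega⟩
  -- the probability
  have hprob : prob ((RL c ρ).eval (bits xs).length) (fun r =>
      (gL c ρ V (pairBits (bits xs) r)).1.length = xs.length ∧
      true ∈ (gL c ρ V (pairBits (bits xs) r)).1 ∧
      holds (xs.map fun x => decide (x ∈ L)) (gL c ρ V (pairBits (bits xs) r)) = true) =
      1 / 2 + (𝔼 T ∈ BLL s k, 𝔼 b ∈ BL k, 𝔼 v ∈ BL k, 𝔼 e ∈ BL 1, 𝔼 coins ∈ BL R,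
        (if holds y (outL N V xs' (T.map valB) b v e coins) then (1 : ℝ) else -1)) / 2 := by
    have g1 : ∀ r, ((gL c ρ V (pairBits (bits xs) r)).1.length = xs.length ∧
        true ∈ (gL c ρ V (pairBits (bits xs) r)).1 ∧
        holds (xs.map fun x => decide (x ∈ L)) (gL c ρ V (pairBits (bits xs) r)) = true) ↔
        holds y (gLs ρ V N xs' k s r) = true := by
      intro r
      rw [gL_eq, ← hNdef, f1, ← hn1, ← hs, ← hxs', ← hk]
      have g2 := outL_adm hN V xs' ((rowsL s k r).map valB) ((r.drop (k * s)).take k)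
        (((r.drop (k * s)).drop k).take k) ((((r.drop (k * s)).drop k).drop k).take 1)
        (((((r.drop (k * s)).drop k).drop k).drop 1).take (ρ.eval (bits xs').length))
      exact ⟨fun h => h.2.2, fun h => ⟨g2.1, g2.2, h⟩⟩
    rw [prob_congr (fun r _ => g1 r), prob_eq']
    have g3 : ∀ r ∈ BL ((RL c ρ).eval (bits xs).length),
        (if holds y (gLs ρ V N xs' k s r) = true then (1 : ℝ) else 0) =
        1 / 2 + (if holds y (gLs ρ V N xs' k s r) = true then (1 : ℝ) else -1) / 2 := by
      intro r _
      split_ifs <;> norm_num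
    rw [expect_congr rfl g3, expect_add_distrib, expect_const (BL_nonempty _), ← expect_div, hz]
    congr 2
    unfold gLs
    refine (expect_rows s k _ (fun T d1 => (if holds y (outL N V xs' (T.map valB) (d1.take k)
      ((d1.drop k).take k) (((d1.drop k).drop k).take 1)
      ((((d1.drop k).drop k).drop 1).take (ρ.eval (bits xs').length))) = true
      then (1 : ℝ) else -1))).trans ?_
    refine expect_congr rfl fun T _ => ?_
    refine (expect_BL_split k _ (fun b d2 => (if holds y (outL N V xs' (T.map valB) b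
      (d2.take k) ((d2.drop k).take 1)
      (((d2.drop k).drop 1).take (ρ.eval (bits xs').length))) = true
      then (1 : ℝ) else -1))).trans ?_
    refine expect_congr rfl fun b _ => ?_
    refine (expect_BL_split k _ (fun v d3 => (if holds y (outL N V xs' (T.map valB) b
      v (d3.take 1) ((d3.drop 1).take (ρ.eval (bits xs').length))) = true
      then (1 : ℝ) else -1))).trans ?_
    refine expect_congr rfl fun v _ => ?_
    refine (expect_BL_split 1 _ (fun e d4 => (if holds y (outL N V xs' (T.map valB) b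
      v e (d4.take (ρ.eval (bits xs').length))) = true
      then (1 : ℝ) else -1))).trans ?_
    refine expect_congr rfl fun e _ => ?_
    exact expect_BL_take _ z (fun coins => (if holds y (outL N V xs' (T.map valB) b
      v e coins) = true then (1 : ℝ) else -1))
  rw [hprob]
  -- the hypothesis
  have hyp := hT n1 xs' (fun x hx => le_mx x (List.mem_of_mem_take hx)) (by rw [hxl]; exact hMP)
  rw [← hk] at hyp
  have hyp2 : (𝔼 T ∈ BLL s k, 𝔼 b ∈ BL k, accL V xs' R (T.map valB) b) +
      1 / (((P.eval n1 : ℕ) : ℝ) + 1) ≤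
      𝔼 T ∈ BLL s k, accL V xs' R (T.map valB) ((T.map valB).map fun j => y.getD j false) := by
    rw [expect_posL s k (fun t => 𝔼 b ∈ BL k, accL V xs' R t b) (hxl.trans hM),
      expect_posL s k (fun t => accL V xs' R t (t.map fun j => y.getD j false)) (hxl.trans hM)]
    have g1 : ∀ t : Fin k → Fin xs'.length, prob (k + ρ.eval (bits xs').length) (fun z =>
        V (pairBits (bits (xs', posL t, z.take k)) (z.drop k)) = [true]) =
        𝔼 b ∈ BL k, accL V xs' R (posL t) b := by
      intro t
      rw [prob_eq', ← hR]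
      exact expect_BL_split k R fun b coins =>
        (if V (pairBits (bits (xs', posL t, b)) coins) = [true] then (1 : ℝ) else 0)
    have g2 : ∀ t : Fin k → Fin xs'.length, prob (ρ.eval (bits xs').length) (fun r =>
        V (pairBits (bits (xs', posL t, answers L (strL xs' t))) r) = [true]) =
        accL V xs' R (posL t) ((posL t).map fun j => y.getD j false) := by
      intro t
      rw [prob_eq', ← hR, accL]
      have g3 : answers L (strL xs' t) = (posL t).map fun j => y.getD j false := by
        unfold answers strL posL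
        rw [List.map_ofFn, List.map_ofFn]
        congr 1
        funext j
        simp only [Function.comp]
        have hj : (t j : ℕ) < xs.length := by
          have := (t j).2
          omega
        rw [List.getD_eq_getElem _ _ (by rw [hyl]; exact hj)]
        simp [hy, hxs']
      rw [g3]
    simp only [g1, g2] at hyp
    exact hyp
  -- the core estimate
  have hcore : (𝔼 T ∈ BLL s k, ((accL V xs' R (T.map valB) ((T.map valB).map fun j => y.getD j false)
      - 𝔼 b ∈ BL k, accL V xs' R (T.map valB) b) / 2 ^ k -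
      2 * (if (T.map valB).Nodup then (0 : ℝ) else 1))) ≤
      𝔼 T ∈ BLL s k, 𝔼 b ∈ BL k, 𝔼 v ∈ BL k, 𝔼 e ∈ BL 1, 𝔼 coins ∈ BL R,
        (if holds y (outL N V xs' (T.map valB) b v e coins) then (1 : ℝ) else -1) := by
    refine expect_le_expect fun T hT' => ?_
    have hT2 := mem_BLL.1 hT'
    refine core hyl V xs' (T.map valB) (by rw [List.length_map, hT2.1]) (fun j hj => ?_) R
    obtain ⟨w, hw, rfl⟩ := List.mem_map.1 hj
    have := valB_lt w
    rw [hT2.2 w hw] at this
    exact lt_of_lt_of_le this f2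
  rw [expect_sub_distrib, ← expect_div, expect_sub_distrib, ← mul_expect] at hcore
  have hnd := expect_not_nodup s k
  set E0 := 𝔼 T ∈ BLL s k, (if (T.map valB).Nodup then (0 : ℝ) else 1) with hE0
  set E1 := 𝔼 T ∈ BLL s k, accL V xs' R (T.map valB)
    ((T.map valB).map fun j => y.getD j false) with hE1
  set E2 := 𝔼 T ∈ BLL s k, 𝔼 b ∈ BL k, accL V xs' R (T.map valB) b with hE2
  set E3 := 𝔼 T ∈ BLL s k, 𝔼 b ∈ BL k, 𝔼 v ∈ BL k, 𝔼 e ∈ BL 1, 𝔼 coins ∈ BL R,
        (if holds y (outL N V xs' (T.map valB) b v e coins) then (1 : ℝ) else -1) with hE3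
  set A : ℝ := 2 ^ k * (((P.eval n1 : ℕ) : ℝ) + 1) with hA
  have hApos : 0 < A := by positivity
  have e1 : 1 / A ≤ (E1 - E2) / 2 ^ k := by
    rw [hA, ← div_div, div_right_comm]
    refine div_le_div_of_nonneg_right ?_ (by positivity)
    linarith
  have e2 : E0 ≤ 1 / (4 * A) := by
    refine hnd.trans ?_
    rw [div_le_div_iff₀ (by positivity) (by positivity)]
    have g1 : ((4 * (k * k) * 2 ^ k * (P.eval n1 + 1) : ℕ) : ℝ) ≤ ((M : ℕ) : ℝ) := by
      exact_mod_cast hMk
    rw [hM] at g1
    push_cast at g1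
    rw [hA]
    calc (k : ℝ) * k * (4 * (2 ^ k * (((P.eval n1 : ℕ) : ℝ) + 1))) =
        4 * ((k : ℝ) * k) * 2 ^ k * (((P.eval n1 : ℕ) : ℝ) + 1) := by ring
      _ ≤ 2 ^ s := g1
      _ = 1 * 2 ^ s := by ring
  have e3 : 1 / (((PL c P).eval n : ℕ) + 1 : ℝ) ≤ 1 / (4 * A) := by
    refine one_div_le_one_div_of_le (by positivity) ?_
    have g1 : ((4 * 2 ^ k * (P.eval n1 + 1) : ℕ) : ℝ) ≤ (((PL c P).eval n + 1 : ℕ) : ℝ) := by
      exact_mod_cast hPk
    push_cast at g1
    rw [hA]
    linarith
  have e4 : 1 / (4 * A) = 1 / A / 4 := by rw [div_div, mul_comm]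
  rw [e4] at e2 e3
  have e5 : E3 ≥ 1 / A / 2 := by linarith
  linarith

end Pool.Agent.Helper48.NB
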