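import Pool.Agent.Helper48.NB.LT

/-!
# Languages in `BPP` are list testable
-/

set_option autoImplicit false

namespace Pool.Agent.Helper48.NB

open Finset BigOperators Pool.Agent.NPC
open Pool.Agent.Helper6K1.BN (BLL mem_BLL BLL_nonempty BL_nonempty expect_BLL_succ expect_BLL_zero
  card_BL' expect_char expect_single any_iff expect_BL_one ip_replicate prob prob_eq' prob_congr
  expect_BL_split expect_rows expect_BL_take poly_pairBits size_upoly headI_poly two_pow_size_le
  answers InBPP prob_mono)
open Pool.Agent.Helper70K1.SP (poly_of_polyTime polyTime_of_typed poly_bits)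
open Pool.Agent.H579R2.Spt (BL mem_BL take_poly')

/-- the string at the first position -/
def fstr (z : List (List Bool) × List ℕ × List Bool) : List Bool := z.1.getD ((z.2.1.head?).getD 0) []

/-- the test: compare the first bit with the decision of a machine for the first position -/
def T1 (V0 : List Bool → List Bool) (ρ : Polynomial ℕ) (y : List Bool) : Bool :=
  match unbits (List (List Bool) × List ℕ × List Bool) (unpair y).1 with
  | none => false
  | some z => decide (V0 (pairBits (fstr z) ((unpair y).2.take (ρ.eval (fstr z).length))) =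
      [true]) == z.2.2.headI

theorem fstr_poly : Poly fstr := by
  unfold fstr
  exact NPC.Poly.getD (NPC.Poly.fst NPC.Poly.id) (NPC.Poly.optGetD (NPC.Poly.head?
    (NPC.Poly.fst (NPC.Poly.snd NPC.Poly.id))) (NPC.Poly.const 0)) (NPC.Poly.const [])

theorem T1_poly {V0 : List Bool → List Bool} (hV0 : PolyTime V0) (ρ : Polynomial ℕ) :
    Poly (T1 V0 ρ) := by
  have e1 : Poly (fun y : List Bool =>
      unbits (List (List Bool) × List ℕ × List Bool) (unpair y).1) :=
    poly_unbits.comp (NPC.Poly.fst poly_unpair)
  have f1 : Poly (fun q : List Bool × (List (List Bool) × List ℕ × List Bool) => fstr q.2) :=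
    fstr_poly.comp (NPC.Poly.snd NPC.Poly.id)
  have f2 : Poly (fun q : List Bool × (List (List Bool) × List ℕ × List Bool) =>
      (unpair q.1).2) :=
    NPC.Poly.comp (g := fun y : List Bool => (unpair y).2) (NPC.Poly.snd poly_unpair)
      (NPC.Poly.fst NPC.Poly.id)
  have e2 : Poly (fun q : List Bool × (List (List Bool) × List ℕ × List Bool) =>
      decide (V0 (pairBits (fstr q.2) ((unpair q.1).2.take (ρ.eval (fstr q.2).length))) =
        [true])) :=
    NPC.Poly.decide_eq ((poly_of_polyTime hV0).comp (poly_pairBits f1
      (take_poly' f2 ((UPoly.length f1).eval ρ).toPoly))) (NPC.Poly.const [true])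
  have e3 : Poly (fun q : List Bool × (List (List Bool) × List ℕ × List Bool) =>
      decide (V0 (pairBits (fstr q.2) ((unpair q.1).2.take (ρ.eval (fstr q.2).length))) =
        [true]) == q.2.2.2.headI) :=
    (NPC.Poly.decide_eq e2 (headI_poly (NPC.Poly.snd (NPC.Poly.snd (NPC.Poly.snd
      NPC.Poly.id))))).congr fun q => by
        cases decide (V0 (pairBits (fstr q.2) ((unpair q.1).2.take (ρ.eval (fstr q.2).length))) =
        [true]) <;> cases q.2.2.2.headI <;> rfl
  exact (NPC.Poly.optCases (g := fun _ => false) (h := fun y z =>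
    decide (V0 (pairBits (fstr z) ((unpair y).2.take (ρ.eval (fstr z).length))) =
        [true]) == z.2.2.headI) e1
    (NPC.Poly.const false) e3).congr fun y => by
      unfold T1
      cases unbits (List (List Bool) × List ℕ × List Bool) (unpair y).1 <;> rfl

theorem T1_eq (V0 : List Bool → List Bool) (ρ : Polynomial ℕ)
    (z : List (List Bool) × List ℕ × List Bool) (r : List Bool) :
    T1 V0 ρ (pairBits (bits z) r) =
      (decide (V0 (pairBits (fstr z) (r.take (ρ.eval (fstr z).length))) = [true]) ==
        z.2.2.headI) := by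
  unfold T1
  rw [unpair_pairBits]
  simp only [unbits_bits]

theorem listTestable_of_bpp {L : Set (List Bool)} (h : InBPP L) : ListTestable L := by
  classical
  obtain ⟨V0, ρ, hV0, hL⟩ := h
  refine ⟨1, Polynomial.C 6, ρ, fun y => [T1 V0 ρ y], polyTime_of_poly (T1_poly hV0 ρ),
    fun n xs hn hxs => ?_⟩
  rw [Polynomial.eval_C] at hxs ⊢
  rw [one_mul]
  set R := ρ.eval (bits xs).length with hR
  have hN : 0 < xs.length := by omega
  have : Nonempty (Fin (n.size + 1) → Fin xs.length) := ⟨fun _ => ⟨0, hN⟩⟩
  -- one tuple of positions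
  have key : ∀ t : Fin (n.size + 1) → Fin xs.length,
      prob (n.size + 1 + R) (fun z => [T1 V0 ρ (pairBits (bits (xs, posL t,
        z.take (n.size + 1))) (z.drop (n.size + 1)))] = [true]) = 1 / 2 ∧
      2 / 3 ≤ prob R (fun r => [T1 V0 ρ (pairBits (bits (xs, posL t,
        answers L (strL xs t))) r)] = [true]) := by
    intro t
    set x := xs.get (t 0) with hx
    have hfs : ∀ v, fstr (xs, posL t, v) = x := by
      intro v
      unfold fstr posL
      simp [List.ofFn_succ, hx]
    have hxm : x ∈ xs := List.get_mem xs _
    have hle : ρ.eval x.length ≤ R := eval_mono ρ (length_le_sz_of_mem hxm)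
    set dec : List Bool → Bool := fun r => decide (V0 (pairBits x (r.take (ρ.eval x.length))) =
      [true]) with hdec
    have hT : ∀ v r : List Bool, ([T1 V0 ρ (pairBits (bits (xs, posL t, v)) r)] = [true]) ↔
        (dec r == v.headI) = true := fun v r => by
      rw [T1_eq V0 ρ (xs, posL t, v) r, List.cons.injEq, hfs]
      exact ⟨fun h => h.1, fun h => ⟨h, rfl⟩⟩
    constructor
    · rw [prob_congr (fun z _ => hT (z.take (n.size + 1)) (z.drop (n.size + 1))), prob_eq',
        expect_BL_split (n.size + 1) R fun v r =>
        (if (dec r == v.headI) = true then (1 : ℝ) else 0),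
        Pool.Agent.Helper6K1.BN.expect_BL_succ, ← expect_add_distrib]
      have : ∀ v ∈ BL n.size, ((𝔼 r ∈ BL R,
          (if (dec r == (true :: v).headI) = true then (1 : ℝ) else 0)) +
          𝔼 r ∈ BL R, (if (dec r == (false :: v).headI) = true then (1 : ℝ) else 0)) = 1 := by
        intro v _
        rw [← expect_add_distrib, ← expect_const (BL_nonempty R) (1 : ℝ)]
        refine expect_congr rfl fun r _ => ?_
        rw [expect_const (BL_nonempty R), List.headI_cons, List.headI_cons]
        cases dec r <;> simp
      rw [expect_congr rfl this, expect_const (BL_nonempty _)]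
    · have h1 := hL x
      rw [← prob_take hle] at h1
      refine h1.trans (prob_mono fun r _ hr => ?_)
      rw [hT]
      have h2 : (answers L (strL xs t)).headI = decide (x ∈ L) := by
        unfold answers strL
        simp [List.ofFn_succ, hx]
      rw [h2]
      by_cases hxL : x ∈ L
      · simp [hxL, hdec, hr.2 hxL]
      · have : V0 (pairBits x (r.take (ρ.eval x.length))) ≠ [true] := fun h' => hxL (hr.1 h')
        simp [hxL, hdec, this]
  have h1 : (𝔼 t : Fin (n.size + 1) → Fin xs.length, prob (n.size + 1 + R) (fun z =>
      [T1 V0 ρ (pairBits (bits (xs, posL t, z.take (n.size + 1))) (z.drop (n.size + 1)))] =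
        [true])) = 1 / 2 := by
    rw [expect_congr rfl fun t _ => (key t).1, expect_const Finset.univ_nonempty]
  have h2 : (2 : ℝ) / 3 ≤ 𝔼 t : Fin (n.size + 1) → Fin xs.length, prob R (fun r =>
      [T1 V0 ρ (pairBits (bits (xs, posL t, answers L (strL xs t))) r)] = [true]) :=
    le_expect Finset.univ_nonempty fun t _ => (key t).2
  rw [h1]
  refine le_trans ?_ h2
  norm_num

end Pool.Agent.Helper48.NB
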