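import Pool.Agent.Helper6K1.BN.Defs

/-!
# Languages whose answers at random positions of long lists can be tested
-/

set_option autoImplicit false

namespace Pool.Agent.Helper48.NB

open Pool.Agent.NPC
open Pool.Agent.Helper6K1.BN (prob answers)
open scoped BigOperators

/-- the positions as a list of numbers -/
def posL {k N : ℕ} (t : Fin k → Fin N) : List ℕ := List.ofFn fun j => (t j : ℕ)

/-- the strings of the list `xs` at the positions -/
def strL (xs : List (List Bool)) {k : ℕ} (t : Fin k → Fin xs.length) : List (List Bool) :=
  List.ofFn fun j => xs.get (t j)

/-- A language `L` is list testable if there are a constant `c` and a randomised polynomial-time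
test `V` that sees a list `xs` of at least `P(n)` strings of length at most `n`, a list of
`c (s(n) + 1)` positions (`s(n)` is the number of binary digits of `n`) and one bit for each of them
(`ρ(k)` random bits are used, where `k` is the length of the code of `xs`). On average over
independent uniformly random positions, the test accepts the bits that are the true answers to
the question whether the string at this position is in `L` with a probability that exceeds by at least `1/(P(n)+1)` the
probability that it accepts random bits. -/
def ListTestable (L : Set (List Bool)) : Prop :=
  ∃ (c : ℕ) (P ρ : Polynomial ℕ) (V : List Bool → List Bool), PolyTime V ∧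
    ∀ (n : ℕ) (xs : List (List Bool)), (∀ x ∈ xs, x.length ≤ n) → P.eval n ≤ xs.length →
      (𝔼 t : Fin (c * (n.size + 1)) → Fin xs.length,
        prob (c * (n.size + 1) + ρ.eval (bits xs).length) fun z =>
          V (pairBits (bits (xs, posL t, z.take (c * (n.size + 1))))
            (z.drop (c * (n.size + 1)))) = [true]) +
        1 / (((P.eval n : ℕ) : ℝ) + 1) ≤
      𝔼 t : Fin (c * (n.size + 1)) → Fin xs.length,
        prob (ρ.eval (bits xs).length) fun r =>
          V (pairBits (bits (xs, posL t, answers L (strL xs t))) r) = [true]

end Pool.Agent.Helper48.NB
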