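import Pool.Agent.Helper6K1.BN.T1c
import Pool.Agent.Helper70K1.NB.Defs
import Pool.Agent.Helper48.NB.LTDefs

/-!
# Random positions and parities of answers
-/

set_option autoImplicit false

namespace Pool.Agent.Helper48.NB

open Finset BigOperators Pool.Agent.NPC
open Pool.Agent.Helper6K1.BN (BLL mem_BLL BLL_nonempty BL_nonempty expect_BLL_succ expect_BLL_zero
  card_BL' expect_char expect_single any_iff)
open Pool.Agent.H579R2.Spt (BL mem_BL ip ip_cons)

/-! ### Numbers given by bits -/

theorem valB_injOn {s : ℕ} : ∀ {a b : List Bool}, a.length = s → b.length = s →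
    valB a = valB b → a = b := by
  induction s with
  | zero =>
    intro a b ha hb _
    rw [List.length_eq_zero_iff.1 ha, List.length_eq_zero_iff.1 hb]
  | succ s ih =>
    intro a b ha hb h
    cases a with
    | nil => simp at ha
    | cons x a =>
      cases b with
      | nil => simp at hb
      | cons y b =>
        rw [valB_cons, valB_cons] at h
        have h1 : valB a = valB b := by
          cases x <;> cases y <;> simp at h <;> omega
        have h2 : x = y := by
          rw [h1] at h
          cases x <;> cases y <;> simp at h <;> first | rfl | omega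
        rw [h2, ih (by simpa using ha) (by simpa using hb) h1]

theorem image_valB (s : ℕ) : (BL s).image valB = Finset.range (2 ^ s) := by
  refine Finset.eq_of_subset_of_card_le ?_ ?_
  · intro i hi
    obtain ⟨z, hz, rfl⟩ := Finset.mem_image.1 hi
    have := valB_lt z
    rw [mem_BL.1 hz] at this
    exact Finset.mem_range.2 this
  · have h1 : ((BL s).image valB).card = (BL s).card :=
      Finset.card_image_of_injOn fun a ha b hb h =>
        valB_injOn (mem_BL.1 ha) (mem_BL.1 hb) h
    have h2 : ((BL s).card : ℝ) = 2 ^ s := card_BL' s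
    have h3 : (BL s).card = 2 ^ s := by exact_mod_cast h2
    rw [h1, h3, Finset.card_range]

theorem sum_valB (s : ℕ) (f : ℕ → ℝ) : ∑ z ∈ BL s, f (valB z) = ∑ i ∈ Finset.range (2 ^ s), f i := by
  rw [← image_valB, Finset.sum_image]
  exact fun a ha b hb h => valB_injOn (mem_BL.1 ha) (mem_BL.1 hb) h

theorem expect_valB (s : ℕ) (f : ℕ → ℝ) {N : ℕ} (hN : N = 2 ^ s) :
    𝔼 z ∈ BL s, f (valB z) = 𝔼 i : Fin N, f i := by
  subst hN
  rw [expect_eq_sum_div_card, expect_eq_sum_div_card, sum_valB, card_BL', Finset.card_univ,
    Fintype.card_fin, Fin.sum_univ_eq_sum_range (fun i => f i) (2 ^ s)]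
  norm_num

theorem expect_consF (k N : ℕ) (G : (Fin (k + 1) → Fin N) → ℝ) :
    𝔼 t : Fin (k + 1) → Fin N, G t = 𝔼 a : Fin N, 𝔼 t : Fin k → Fin N, G (Fin.cons a t) := by
  rw [← Fintype.expect_equiv (Fin.consEquiv fun _ : Fin (k + 1) => Fin N)
    (fun q => G (Fin.cons q.1 q.2)) G (fun q => rfl)]
  rw [← Finset.univ_product_univ, expect_product]

theorem expect_posL (s k : ℕ) (F : List ℕ → ℝ) {N : ℕ} (hN : N = 2 ^ s) :
    𝔼 T ∈ BLL s k, F (T.map valB) = 𝔼 t : Fin k → Fin N, F (posL t) := by
  induction k generalizing F with
  | zero =>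
    rw [expect_BLL_zero]
    simp [posL]
  | succ k ih =>
    rw [expect_BLL_succ, expect_consF]
    have h1 : ∀ z ∈ BL s, 𝔼 T ∈ BLL s k, F ((z :: T).map valB) =
        𝔼 t : Fin k → Fin N, F (valB z :: posL t) := by
      intro z _
      rw [← ih fun l => F (valB z :: l)]
      rfl
    rw [expect_congr rfl h1, expect_valB s (fun i => 𝔼 t : Fin k → Fin N, F (i :: posL t)) hN]
    refine expect_congr rfl fun a _ => expect_congr rfl fun t _ => ?_
    simp [posL]

/-- a random position is in a given list with small probability -/
theorem expect_mem (s : ℕ) (l : List ℕ) :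
    𝔼 z ∈ BL s, (if valB z ∈ l then (1 : ℝ) else 0) ≤ (l.length : ℝ) / 2 ^ s := by
  classical
  rw [expect_eq_sum_div_card, sum_valB s (fun i => if i ∈ l then (1 : ℝ) else 0), card_BL']
  refine div_le_div_of_nonneg_right ?_ (by positivity)
  rw [Finset.sum_boole]
  have h1 : (Finset.filter (fun x => x ∈ l) (Finset.range (2 ^ s))) ⊆ l.toFinset := by
    intro i hi
    simp only [Finset.mem_filter] at hi
    exact List.mem_toFinset.2 hi.2
  have h2 := (Finset.card_le_card h1).trans (List.toFinset_card_le l)
  exact_mod_cast h2

theorem expect_not_nodup (s k : ℕ) :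
    𝔼 T ∈ BLL s k, (if (T.map valB).Nodup then (0 : ℝ) else 1) ≤ (k : ℝ) * k / 2 ^ s := by
  classical
  induction k with
  | zero => rw [expect_BLL_zero]; simp
  | succ k ih =>
    rw [expect_BLL_succ]
    have h1 : 𝔼 z ∈ BL s, 𝔼 T ∈ BLL s k, (if ((z :: T).map valB).Nodup then (0 : ℝ) else 1) ≤
        𝔼 z ∈ BL s, 𝔼 T ∈ BLL s k, ((if valB z ∈ T.map valB then (1 : ℝ) else 0) +
          (if (T.map valB).Nodup then (0 : ℝ) else 1)) := by
      refine expect_le_expect fun z _ => expect_le_expect fun T _ => ?_
      have h0 : ((z :: T).map valB).Nodup ↔ valB z ∉ T.map valB ∧ (T.map valB).Nodup := by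
        rw [List.map_cons, List.nodup_cons]
      by_cases h2 : valB z ∈ T.map valB
      · rw [if_pos h2]
        split_ifs <;> norm_num
      · rw [if_neg h2]
        by_cases h3 : (T.map valB).Nodup
        · rw [if_pos (h0.2 ⟨h2, h3⟩), if_pos h3]; norm_num
        · rw [if_neg (fun h => h3 (h0.1 h).2), if_neg h3]; norm_num
    refine h1.trans ?_
    have h2 : 𝔼 z ∈ BL s, 𝔼 T ∈ BLL s k, ((if valB z ∈ T.map valB then (1 : ℝ) else 0) +
          (if (T.map valB).Nodup then (0 : ℝ) else 1)) =
        (𝔼 T ∈ BLL s k, 𝔼 z ∈ BL s, (if valB z ∈ T.map valB then (1 : ℝ) else 0)) +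
          𝔼 T ∈ BLL s k, (if (T.map valB).Nodup then (0 : ℝ) else 1) := by
      rw [expect_comm, ← expect_add_distrib]
      refine expect_congr rfl fun T _ => ?_
      rw [expect_add_distrib, expect_const (BL_nonempty s)]
    rw [h2]
    have h3 : 𝔼 T ∈ BLL s k, 𝔼 z ∈ BL s, (if valB z ∈ T.map valB then (1 : ℝ) else 0) ≤
        (k : ℝ) / 2 ^ s := by
      refine expect_le (BLL_nonempty s k) fun T hT => ?_
      have h4 := expect_mem s (T.map valB)
      rw [List.length_map, (mem_BLL.1 hT).1] at h4
      exact h4
    have h4 : (0 : ℝ) < 2 ^ s := by positivity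
    calc _ ≤ (k : ℝ) / 2 ^ s + (k : ℝ) * k / 2 ^ s := add_le_add h3 ih
      _ ≤ ((k + 1 : ℕ) : ℝ) * ((k + 1 : ℕ) : ℝ) / 2 ^ s := by
          rw [← add_div]
          refine div_le_div_of_nonneg_right ?_ h4.le
          push_cast
          nlinarith

/-! ### Parities -/

/-- the selected set: the position `i` is selected if an odd number of the selected entries of `t`
are `i` -/
def selS (N : ℕ) (v : List Bool) (t : List ℕ) : List Bool :=
  (List.range N).map fun i => ip v (t.map fun j => decide (j = i))

@[simp] theorem selS_length (N : ℕ) (v : List Bool) (t : List ℕ) : (selS N v t).length = N := by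
  simp [selS]

theorem ip_nil_left (w : List Bool) : ip [] w = false := by
  simp [ip]

theorem ip_nil_right' (v : List Bool) : ip v [] = false := by
  cases v <;> simp [ip]

theorem sgP_eq (b : Bool) : Pool.Agent.Helper70K1.PP.sg b = Pool.Agent.Helper6K1.BN.sg b := by
  cases b <;> rfl

theorem par_zip_eq_ip : ∀ v w : List Bool,
    Pool.Agent.Helper70K1.PP.par (List.zipWith (fun s t => s && t) v w) = ip v w := by
  intro v
  induction v with
  | nil => intro w; simp [Pool.Agent.Helper70K1.PP.par, ip_nil_left]
  | cons a v ih =>
    intro w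
    cases w with
    | nil => simp [Pool.Agent.Helper70K1.PP.par, ip_nil_right']
    | cons b w =>
      rw [List.zipWith_cons_cons, ip_cons, ← ih w]
      rfl

/-- the sum over the selected set is the sum over the selected entries -/
theorem sg_sel {N : ℕ} (Y : ℕ → Bool) : ∀ (v : List Bool) (t : List ℕ), (∀ j ∈ t, j < N) →
    ∏ i ∈ Finset.range N, Pool.Agent.Helper6K1.BN.sg
      (ip v (t.map fun j => decide (j = i)) && Y i) =
    Pool.Agent.Helper6K1.BN.sg (ip v (t.map Y)) := by
  intro v
  induction v with
  | nil => intro t _; simp [ip_nil_left]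
  | cons c v ih =>
    intro t ht
    cases t with
    | nil => simp [ip_nil_right']
    | cons j t =>
      have h1 := ih t fun j' hj' => ht j' (by simp [hj'])
      have hj : j < N := ht j (by simp)
      simp only [List.map_cons, ip_cons]
      have h2 : ∀ i ∈ Finset.range N, Pool.Agent.Helper6K1.BN.sg
          (((c && decide (j = i)) ^^ ip v (t.map fun j => decide (j = i))) && Y i) =
          Pool.Agent.Helper6K1.BN.sg (c && decide (j = i) && Y i) *
          Pool.Agent.Helper6K1.BN.sg (ip v (t.map fun j => decide (j = i)) && Y i) := by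
        intro i _
        rw [← Pool.Agent.Helper6K1.BN.sg_xor]
        congr 1
        cases c <;> cases decide (j = i) <;> cases Y i <;>
          cases ip v (t.map fun j => decide (j = i)) <;> rfl
      rw [Finset.prod_congr rfl h2, Finset.prod_mul_distrib, h1,
        Pool.Agent.Helper6K1.BN.sg_xor]
      congr 1
      rw [Finset.prod_eq_single j]
      · simp
      · intro i _ hi
        have : decide (j = i) = false := by simpa using fun h => hi h.symm
        rw [this]
        simp
      · intro h
        exact absurd (Finset.mem_range.2 hj) h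

theorem sg_par_sel {N : ℕ} {y : List Bool} (hy : y.length = N) (v : List Bool) (t : List ℕ)
    (ht : ∀ j ∈ t, j < N) :
    Pool.Agent.Helper70K1.PP.sg (Pool.Agent.Helper70K1.PP.par
      (List.zipWith (fun s t => s && t) (selS N v t) y)) =
    Pool.Agent.Helper6K1.BN.sg (ip v (t.map fun j => y.getD j false)) := by
  have h1 : y = Pool.Agent.Helper70K1.PP.vec N fun i => y.getD i false := by
    refine List.ext_getElem (by simp [hy]) fun i h1 h2 => ?_
    simp [Pool.Agent.Helper70K1.PP.vec, h1]
  have h2 : List.zipWith (fun s t => s && t) (selS N v t) y =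
      Pool.Agent.Helper70K1.PP.vec N fun i => (selS N v t).getD i false && y.getD i false := by
    conv_lhs => rw [h1]
    exact Pool.Agent.Helper70K1.PP.zipWith_vec (selS_length N v t) _
  rw [h2, Pool.Agent.Helper70K1.PP.sg_par_vec, ← sg_sel (N := N) (fun i => y.getD i false) v t ht]
  refine Finset.prod_congr rfl fun i hi => ?_
  have hi' := Finset.mem_range.1 hi
  rw [sgP_eq]
  congr 2
  rw [List.getD_eq_getElem _ _ (by simpa using hi')]
  simp [selS]

/-- for distinct positions a nonempty selection is nonempty -/
theorem selS_true {N : ℕ} : ∀ {v : List Bool} {t : List ℕ}, v.length = t.length → t.Nodup →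
    (∀ j ∈ t, j < N) → v.any id = true → true ∈ selS N v t := by
  intro v t hvt ht htN hv
  -- the first selected entry
  have key : ∀ (v : List Bool) (t : List ℕ), v.length = t.length → t.Nodup → v.any id = true →
      ∃ i ∈ t, ip v (t.map fun j => decide (j = i)) = true := by
    intro v
    induction v with
    | nil => intro t _ _ h; simp at h
    | cons c v ih =>
      intro t h1 h2 h3
      cases t with
      | nil => simp at h1
      | cons j t =>
        rw [List.nodup_cons] at h2
        cases c
        · obtain ⟨i, hi, h4⟩ := ih t (by simpa using h1) h2.2 (by simpa using h3)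
          exact ⟨i, by simp [hi], by rw [List.map_cons, ip_cons]; simp [h4]⟩
        · refine ⟨j, by simp, ?_⟩
          rw [List.map_cons, ip_cons]
          have h4 : t.map (fun j' => decide (j' = j)) = List.replicate t.length false := by
            refine List.eq_replicate_iff.2 ⟨by simp, fun b hb => ?_⟩
            obtain ⟨j', hj', rfl⟩ := List.mem_map.1 hb
            simp only [decide_eq_false_iff_not]
            rintro rfl
            exact h2.1 hj'
          rw [h4]
          have h5 : ip v (List.replicate t.length false) = false := by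
            have : ∀ (v : List Bool) (n : ℕ), ip v (List.replicate n false) = false := by
              intro v
              induction v with
              | nil => intro n; exact ip_nil_left _
              | cons a v ih =>
                intro n
                cases n with
                | zero => exact ip_nil_right' _
                | succ n => rw [List.replicate_succ, ip_cons, ih]; simp
            exact this v t.length
          rw [h5]
          simp
  obtain ⟨i, hi, h⟩ := key v t hvt ht hv
  unfold selS
  rw [List.mem_map]
  exact ⟨i, List.mem_range.2 (htN i hi), h⟩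

end Pool.Agent.Helper48.NB
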